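import Mathlib

/-!
Correspondences, distortion and the Gromov-Hausdorff distance, as in the problem file.
-/

namespace Pool.Agent.MP_029391_gt.SL

/-- A correspondence between `X` and `Y`: a subset of `X × Y` whose two projections are onto. -/
def IsCorrespondence {X Y : Type} (S : Set (X × Y)) : Prop :=
  (∀ x : X, ∃ y : Y, (x, y) ∈ S) ∧ (∀ y : Y, ∃ x : X, (x, y) ∈ S)

/-- The distortion of `S`: the supremum of `|d(x,x') - d(y,y')|` over `(x,y), (x',y') ∈ S`. -/
noncomputable def distortion {X Y : Type} [MetricSpace X] [MetricSpace Y]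
    (S : Set (X × Y)) : ℝ :=
  sSup {r : ℝ | ∃ p ∈ S, ∃ q ∈ S, r = |dist p.1 q.1 - dist p.2 q.2|}

/-- The Gromov-Hausdorff distance: half the infimum of the distortions of correspondences. -/
noncomputable def dGH (X Y : Type) [MetricSpace X] [MetricSpace Y] : ℝ :=
  (1 / 2) * sInf {r : ℝ | ∃ S : Set (X × Y), IsCorrespondence S ∧ r = distortion S}

end Pool.Agent.MP_029391_gt.SL
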