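import Pool.Agent.MP_029391_gt.SL.Upper

/-!
The lower bound: `k` metrics on one finite set whose optimal correspondences have a monodromy.
-/

namespace Pool.Agent.MP_029391_gt.SL

/-- A metric with all nonzero distances in `[M, 2 M]`. -/
@[reducible] noncomputable def mkMetric {α : Type} [DecidableEq α] (M : ℝ) (hM : 0 < M)
    (f : α → α → ℝ) (hs : ∀ x y, f x y = f y x) (h0 : ∀ x y, 0 ≤ f x y) (h1 : ∀ x y, f x y ≤ M) :
    MetricSpace α where
  dist x y := if x = y then 0 else M + f x y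
  dist_self x := by simp
  dist_comm x y := by
    by_cases h : x = y
    · simp [h]
    · rw [if_neg h, if_neg (Ne.symm h), hs]
  dist_triangle x y z := by
    have a1 := h0 x y
    have a2 := h0 y z
    have a3 := h1 x z
    by_cases hxy : x = y
    · subst hxy; simp
    · by_cases hyz : y = z
      · subst hyz; simp
      · rw [if_neg hxy, if_neg hyz]
        split_ifs <;> linarith
  eq_of_dist_eq_zero := by
    intro x y h
    by_contra hxy
    have a1 := h0 x y
    simp only [if_neg hxy] at h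
    linarith

/-- the cyclic distance on the cycle of length `2 k` between `i + k e` and `m` -/
def cyc (k : ℕ) (e : Bool) (i m : ℕ) : ℤ := if e then k - |(i : ℤ) - m| else |(i : ℤ) - m|

/-- the points: a side and a class -/
def V (k : ℕ) (_i : Fin k) : Type := Bool × Fin (k + 1)

instance (k : ℕ) (i : Fin k) : DecidableEq (V k i) := inferInstanceAs (DecidableEq (Bool × _))
instance (k : ℕ) (i : Fin k) : Finite (V k i) := inferInstanceAs (Finite (Bool × _))
instance (k : ℕ) (i : Fin k) : Nonempty (V k i) := inferInstanceAs (Nonempty (Bool × _))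

/-- the variable part of the distance, an integer in `[0, 2 k (k + 2)]` -/
def off (k : ℕ) (i : ℕ) (x y : Bool × Fin (k + 1)) : ℤ :=
  if x.2 = y.2 then 2 * k * (2 + x.2.val)
  else if x.1 = y.1 ∧ (x.2.val = 0 ∨ y.2.val = 0) then cyc k x.1 i (x.2.val + y.2.val - 1)
  else 2 * k

lemma cyc_bounds {k i m : ℕ} (e : Bool) (hi : i < k) (hm : m < k) :
    0 ≤ cyc k e i m ∧ cyc k e i m ≤ k := by
  unfold cyc
  have := abs_nonneg ((i : ℤ) - m)
  have : |(i : ℤ) - m| ≤ k := by rw [abs_le]; constructor <;> omega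
  split_ifs <;> constructor <;> omega

lemma off_symm (k i : ℕ) (x y : Bool × Fin (k + 1)) : off k i x y = off k i y x := by
  unfold off
  by_cases h : x.2 = y.2
  · rw [if_pos h, if_pos h.symm, h]
  · rw [if_neg h, if_neg (Ne.symm h)]
    by_cases h' : x.1 = y.1 ∧ (x.2.val = 0 ∨ y.2.val = 0)
    · rw [if_pos h', if_pos ⟨h'.1.symm, h'.2.symm⟩, h'.1, add_comm x.2.val]
    · rw [if_neg h', if_neg fun h'' => h' ⟨h''.1.symm, h''.2.symm⟩]

lemma off_cases {k i : ℕ} (hi : i < k) (x y : Bool × Fin (k + 1)) :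
    (x.2 = y.2 ∧ off k i x y = 2 * k * (2 + x.2.val)) ∨
    (x.2 ≠ y.2 ∧ x.1 = y.1 ∧ off k i x y = cyc k x.1 i (x.2.val + y.2.val - 1) ∧
      0 ≤ off k i x y ∧ off k i x y ≤ k) ∨
    (x.2 ≠ y.2 ∧ off k i x y = 2 * k) := by
  unfold off
  by_cases h : x.2 = y.2
  · exact Or.inl ⟨h, if_pos h⟩
  · rw [if_neg h]
    by_cases h' : x.1 = y.1 ∧ (x.2.val = 0 ∨ y.2.val = 0)
    · rw [if_pos h']
      have hne : x.2.val ≠ y.2.val := fun e => h (Fin.ext e)
      have h1 := x.2.isLt
      have h2 := y.2.isLt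
      exact Or.inr (Or.inl ⟨h, h'.1, rfl, cyc_bounds _ hi (by omega)⟩)
    · rw [if_neg h']
      exact Or.inr (Or.inr ⟨h, rfl⟩)

lemma off_bounds {k i : ℕ} (hi : i < k) (x y : Bool × Fin (k + 1)) :
    0 ≤ off k i x y ∧ off k i x y ≤ 2 * k * (2 + k) := by
  have h1 : (x.2.val : ℤ) ≤ k := by have := x.2.isLt; omega
  have h2 : (0 : ℤ) ≤ x.2.val := by positivity
  have h3 : (0 : ℤ) ≤ k := by positivity
  rcases off_cases hi x y with h | h | h
  · rw [h.2]
    constructor <;> nlinarith
  · constructor <;> nlinarith [h.2.2.2.1, h.2.2.2.2]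
  · rw [h.2]
    constructor <;> nlinarith

noncomputable instance (k : ℕ) (i : Fin k) : MetricSpace (V k i) :=
  mkMetric ((2 * k * (2 + k) : ℤ) : ℝ) (by have := i.pos; positivity)
    (fun x y => (off k i x y : ℝ)) (fun x y => by rw [off_symm])
    (fun x y => by exact_mod_cast (off_bounds i.isLt x y).1)
    (fun x y => by exact_mod_cast (off_bounds i.isLt x y).2)

/-- the integer distance -/
def zd (k i : ℕ) (x y : Bool × Fin (k + 1)) : ℤ :=
  if x = y then 0 else 2 * k * (2 + k) + off k i x y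

lemma dist_eq (k : ℕ) (i : Fin k) (x y : V k i) : dist x y = (zd k i x y : ℝ) := by
  show (if x = y then (0 : ℝ) else _) = _
  unfold zd
  split_ifs with h1 h2 h2
  · simp
  · exact absurd h1 h2
  · exact absurd h2 h1
  · push_cast; rfl

/-- A pair at distance close to that of the two points of class `c` is that pair. -/
lemma class_of_close {k i j : ℕ} (hj : j < k) (e : Bool) (c : Fin (k + 1))
    (x y : Bool × Fin (k + 1)) (h : |zd k i (e, c) (!e, c) - zd k j x y| < k) : x.2 = c := by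
  have e1 : zd k i (e, c) (!e, c) = 2 * k * (2 + k) + 2 * k * (2 + c.val) := by
    unfold zd off
    rw [if_neg (by cases e <;> simp), if_pos rfl]
  rw [e1, abs_lt] at h
  have h2 : (0 : ℤ) ≤ c.val := by positivity
  have h3 : (0 : ℤ) < k := by omega
  unfold zd at h
  split_ifs at h with hxy
  · nlinarith [h.2]
  · rcases off_cases hj x y with h4 | h4 | h4
    · rw [h4.2] at h
      apply Fin.ext
      have h5 : (x.2.val : ℤ) < c.val + 1 := by nlinarith [h.1]
      have h6 : (c.val : ℤ) < x.2.val + 1 := by nlinarith [h.2]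
      omega
    · nlinarith [h.2, h4.2.2.2.2]
    · nlinarith [h.2, h4.2]

lemma zd_same {k i : ℕ} (e : Bool) (m : Fin k) :
    zd k i (e, 0) (e, m.succ) = 2 * k * (2 + k) + cyc k e i m := by
  unfold zd off
  rw [if_neg (by simp [(Fin.succ_ne_zero m).symm]), if_neg (Fin.succ_ne_zero m).symm,
    if_pos ⟨rfl, Or.inl rfl⟩]
  simp

lemma side_of_close {k i j : ℕ} (hi : i < k) (e e1 e2 : Bool) (m : Fin k)
    (h : |zd k i (e, 0) (e, m.succ) - zd k j (e1, 0) (e2, m.succ)| < k) : e1 = e2 := by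
  by_contra hne
  have e2' : zd k j (e1, 0) (e2, m.succ) = 2 * k * (2 + k) + 2 * k := by
    unfold zd off
    rw [if_neg (by simp [hne]), if_neg (Fin.succ_ne_zero m).symm, if_neg (by simp [hne])]
  rw [zd_same, e2', abs_lt] at h
  have := (cyc_bounds e hi m.isLt).2
  omega

lemma zd_step {k i : ℕ} (x y : Bool × Fin (k + 1)) : |zd k i x y - zd k (i + 1) x y| ≤ 1 := by
  unfold zd off cyc
  have := abs_abs_sub_abs_le_abs_sub ((i : ℤ) - (x.2.val + y.2.val - 1 : ℕ))
    (((i + 1 : ℕ) : ℤ) - (x.2.val + y.2.val - 1 : ℕ))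
  rw [show (i : ℤ) - (x.2.val + y.2.val - 1 : ℕ) - (((i + 1 : ℕ) : ℤ) - (x.2.val + y.2.val - 1 : ℕ))
    = -1 by push_cast; ring, abs_neg, abs_one, abs_le] at this
  rw [abs_le]
  split_ifs <;> constructor <;> omega

lemma zd_flip {k : ℕ} (x y : Bool × Fin (k + 1 + 1)) :
    |zd (k + 1) 0 x y - zd (k + 1) k (!x.1, x.2) (!y.1, y.2)| ≤ 1 := by
  obtain ⟨a, c⟩ := x
  obtain ⟨b, d⟩ := y
  have h1 := c.isLt
  have h2 := d.isLt
  unfold zd off cyc
  simp only [Prod.mk.injEq, Bool.not_inj_iff]
  by_cases hcd : c = d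
  · simp [hcd]
  · have hne : c.val ≠ d.val := fun e => hcd (Fin.ext e)
    simp only [hcd, and_false, if_false]
    by_cases h' : a = b ∧ (c.val = 0 ∨ d.val = 0)
    · rw [if_pos h', if_pos h']
      have e1 : |((0 : ℕ) : ℤ) - (c.val + d.val - 1 : ℕ)| = (c.val + d.val - 1 : ℕ) := by
        rw [abs_of_nonpos (by omega)]; omega
      have e2 : |(k : ℤ) - (c.val + d.val - 1 : ℕ)| = k - (c.val + d.val - 1 : ℕ) :=
        abs_of_nonneg (by omega)
      rw [e1, e2, abs_le]
      cases a <;> simp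
    · rw [if_neg h', if_neg h']
      simp

lemma opt_le {k : ℕ} (i j : Fin k) (g : V k i ≃ V k j)
    (h : ∀ x y, |zd k i x y - zd k j (g x) (g y)| ≤ 1) : 2 * dGH (V k i) (V k j) ≤ 1 := by
  refine (two_dGH_le (T := {z | z.2 = g z.1})
    ⟨fun x => ⟨g x, rfl⟩, fun y => ⟨g.symm y, (g.apply_symm_apply y).symm⟩⟩).trans
    (distortion_le _ zero_le_one ?_)
  rintro ⟨x, x'⟩ hx ⟨y, y'⟩ hy
  obtain rfl : x' = g x := hx
  obtain rfl : y' = g y := hy
  rw [dist_eq, dist_eq]
  exact_mod_cast h x y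

/-- No relation with full projections is better than `k - 1` on all consecutive pairs. -/
theorem no_better (n : ℕ) (R : Set (∀ i : Fin (n + 2), V (n + 2) i))
    (hfull : ∀ i x, ∃ r ∈ R, r i = x)
    (hstep : ∀ i : Fin (n + 1), ∀ r ∈ R, ∀ r' ∈ R,
      |zd (n + 2) i (r i.castSucc) (r' i.castSucc) - zd (n + 2) (i + 1) (r i.succ) (r' i.succ)|
        < n + 1)
    (hlast : ∀ r ∈ R, ∀ r' ∈ R,
      |zd (n + 2) 0 (r 0) (r' 0) - zd (n + 2) (n + 1) (r (Fin.last _)) (r' (Fin.last _))|
        < n + 1) : False := by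
  have hclass : ∀ r ∈ R, ∀ i : Fin (n + 2), (r i).2 = (r 0).2 := by
    intro r hr i
    induction i using Fin.induction with
    | zero => rfl
    | succ i ih =>
      obtain ⟨r', hr', e⟩ := hfull i.castSucc (!(r i.castSucc).1, (r i.castSucc).2)
      have h := hstep i r hr r' hr'
      rw [e] at h
      rw [← ih]
      exact class_of_close (k := n + 2) (i := i) (j := i + 1) (by omega) (r i.castSucc).1
        (r i.castSucc).2 _ _ (h.trans (by push_cast; omega))
  obtain ⟨r0, h0, e0⟩ := hfull 0 (false, 0)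
  have hm : ∀ m : Fin (n + 2), ∃ r ∈ R, ∀ i, r0 i = ((r0 i).1, 0) ∧ r i = ((r0 i).1, m.succ) := by
    intro m
    obtain ⟨r, hr, e⟩ := hfull 0 (false, m.succ)
    have c0 : ∀ i, r0 i = ((r0 i).1, 0) := fun i =>
      Prod.ext rfl (by rw [hclass r0 h0 i, e0])
    have c1 : ∀ i, r i = ((r i).1, m.succ) := fun i =>
      Prod.ext rfl (by rw [hclass r hr i, e])
    refine ⟨r, hr, fun i => ⟨c0 i, ?_⟩⟩
    induction i using Fin.induction with
    | zero => rw [e, e0]
    | succ i ih =>
      have h := hstep i r0 h0 r hr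
      rw [ih, c0 i.castSucc, c0 i.succ, c1 i.succ] at h
      have := side_of_close (k := n + 2) (i := i) (j := i + 1) (by omega) _ _ _ m
        (h.trans (by push_cast; omega))
      rw [c1 i.succ, this]
  have hside : ∀ i : Fin (n + 2), (r0 i).1 = false := by
    intro i
    induction i using Fin.induction with
    | zero => rw [e0]
    | succ i ih =>
      obtain ⟨r, hr, hri⟩ := hm i.castSucc
      have h := hstep i r0 h0 r hr
      rw [(hri i.castSucc).2, (hri i.succ).2, (hri i.castSucc).1, (hri i.succ).1, zd_same, zd_same,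
        ih] at h
      by_contra hne
      rw [Bool.not_eq_false] at hne
      rw [hne] at h
      simp only [cyc, Fin.val_castSucc] at h
      push_cast at h
      simp only [sub_self, abs_zero, add_sub_cancel_left, abs_one] at h
      rw [abs_lt] at h
      omega
  obtain ⟨r, hr, hri⟩ := hm 0
  have h := hlast r0 h0 r hr
  rw [(hri 0).2, (hri (Fin.last _)).2, (hri 0).1, (hri (Fin.last _)).1, zd_same, zd_same,
    hside, hside] at h
  simp only [cyc, Fin.val_zero] at h
  push_cast at h
  simp only [abs_zero, sub_zero] at h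
  rw [abs_of_nonneg (by positivity : (0 : ℤ) ≤ n + 1), abs_lt] at h
  omega

end Pool.Agent.MP_029391_gt.SL
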