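import Pool.Agent.MP_029391_gt.SL.Defs

/-!
Optimal correspondences exist, and gluing them along a greedy spanning tree loses at most the
factor `k - 1`.
-/

namespace Pool.Agent.MP_029391_gt.SL

open Filter Topology

section General

variable {X Y : Type} [MetricSpace X] [MetricSpace Y]

theorem distortion_nonneg (S : Set (X × Y)) : 0 ≤ distortion S := by
  apply Real.sSup_nonneg
  rintro r ⟨p, -, q, -, rfl⟩
  exact abs_nonneg _

theorem distortion_le (S : Set (X × Y)) {c : ℝ} (hc : 0 ≤ c)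
    (h : ∀ p ∈ S, ∀ q ∈ S, |dist p.1 q.1 - dist p.2 q.2| ≤ c) : distortion S ≤ c := by
  apply Real.sSup_le _ hc
  rintro r ⟨p, hp, q, hq, rfl⟩
  exact h p hp q hq

theorem le_distortion [CompactSpace X] [CompactSpace Y] (S : Set (X × Y)) {p q : X × Y}
    (hp : p ∈ S) (hq : q ∈ S) : |dist p.1 q.1 - dist p.2 q.2| ≤ distortion S := by
  apply le_csSup
  · refine ⟨Metric.diam (Set.univ : Set X) + Metric.diam (Set.univ : Set Y), ?_⟩
    rintro r ⟨p, -, q, -, rfl⟩
    have h1 : dist p.1 q.1 ≤ Metric.diam (Set.univ : Set X) :=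
      Metric.dist_le_diam_of_mem isCompact_univ.isBounded trivial trivial
    have h2 : dist p.2 q.2 ≤ Metric.diam (Set.univ : Set Y) :=
      Metric.dist_le_diam_of_mem isCompact_univ.isBounded trivial trivial
    have h3 : 0 ≤ dist p.1 q.1 := dist_nonneg
    have h4 : 0 ≤ dist p.2 q.2 := dist_nonneg
    rw [abs_le]
    constructor <;> linarith
  · exact ⟨p, hp, q, hq, rfl⟩

theorem two_dGH_nonneg : 0 ≤ 2 * dGH X Y := by
  have : 0 ≤ sInf {r : ℝ | ∃ S : Set (X × Y), IsCorrespondence S ∧ r = distortion S} := by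
    apply Real.sInf_nonneg
    rintro r ⟨S, -, rfl⟩
    exact distortion_nonneg S
  unfold dGH
  linarith

theorem two_dGH_le {T : Set (X × Y)} (hT : IsCorrespondence T) : 2 * dGH X Y ≤ distortion T := by
  have : sInf {r : ℝ | ∃ S : Set (X × Y), IsCorrespondence S ∧ r = distortion S}
      ≤ distortion T := by
    apply csInf_le
    · refine ⟨0, ?_⟩
      rintro r ⟨U, -, rfl⟩
      exact distortion_nonneg U
    · exact ⟨T, hT, rfl⟩
  unfold dGH
  linarith

/-- An optimal correspondence exists. -/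
theorem exists_optimal [CompactSpace X] [CompactSpace Y] [Nonempty X] [Nonempty Y] :
    ∃ S : Set (X × Y), IsCorrespondence S ∧
      ∀ p ∈ S, ∀ q ∈ S, |dist p.1 q.1 - dist p.2 q.2| ≤ 2 * dGH X Y := by
  have hne : {r : ℝ | ∃ S : Set (X × Y), IsCorrespondence S ∧ r = distortion S}.Nonempty :=
    ⟨_, Set.univ, ⟨fun _ => ⟨Classical.arbitrary Y, trivial⟩,
      fun _ => ⟨Classical.arbitrary X, trivial⟩⟩, rfl⟩
  have hex : ∀ n : ℕ, ∃ S : Set (X × Y), IsCorrespondence S ∧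
      distortion S < 2 * dGH X Y + 1 / ((n : ℝ) + 1) := by
    intro n
    have h1 : sInf {r : ℝ | ∃ S : Set (X × Y), IsCorrespondence S ∧ r = distortion S}
        < 2 * dGH X Y + 1 / ((n : ℝ) + 1) := by
      have : (0 : ℝ) < 1 / ((n : ℝ) + 1) := by positivity
      unfold dGH
      linarith
    obtain ⟨r, ⟨S, hS, rfl⟩, hr⟩ := exists_lt_of_csInf_lt hne h1
    exact ⟨S, hS, hr⟩
  choose S hS hd using hex
  let U : Ultrafilter ℕ := hyperfilter ℕ
  have hU : (U : Filter ℕ) ≤ atTop := by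
    rw [← Nat.cofinite_eq_atTop]
    exact hyperfilter_le_cofinite
  refine ⟨{z | ∃ f : ℕ → X × Y, (∀ n, f n ∈ S n) ∧ Tendsto f U (𝓝 z)}, ⟨fun x => ?_, fun y => ?_⟩,
    ?_⟩
  · choose g hg using fun n => (hS n).1 x
    obtain ⟨y, -, hy⟩ := isCompact_univ.ultrafilter_le_nhds (U.map g) (by simp)
    exact ⟨y, fun n => (x, g n), hg, tendsto_const_nhds.prodMk_nhds hy⟩
  · choose g hg using fun n => (hS n).2 y
    obtain ⟨x, -, hx⟩ := isCompact_univ.ultrafilter_le_nhds (U.map g) (by simp)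
    exact ⟨x, fun n => (g n, y), hg, Tendsto.prodMk_nhds hx tendsto_const_nhds⟩
  · rintro p ⟨f, hf, lf⟩ q ⟨g, hg, lg⟩
    have l1 : Tendsto (fun n => |dist (f n).1 (g n).1 - dist (f n).2 (g n).2|) U
        (𝓝 |dist p.1 q.1 - dist p.2 q.2|) :=
      ((lf.fst_nhds.dist lg.fst_nhds).sub (lf.snd_nhds.dist lg.snd_nhds)).abs
    have l2 : Tendsto (fun n : ℕ => 2 * dGH X Y + 1 / ((n : ℝ) + 1)) U (𝓝 (2 * dGH X Y + 0)) :=
      tendsto_const_nhds.add (tendsto_one_div_add_atTop_nhds_zero_nat.mono_left hU)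
    rw [add_zero] at l2
    exact le_of_tendsto_of_tendsto' l1 l2 fun n =>
      (le_distortion (S n) (hf n) (hg n)).trans (hd n).le

theorem dGH_comm_le : 2 * dGH X Y ≤ 2 * dGH Y X := by
  have : {r : ℝ | ∃ S : Set (X × Y), IsCorrespondence S ∧ r = distortion S}
      = {r : ℝ | ∃ S : Set (Y × X), IsCorrespondence S ∧ r = distortion S} := by
    have key : ∀ {X Y : Type} [MetricSpace X] [MetricSpace Y],
        {r : ℝ | ∃ S : Set (X × Y), IsCorrespondence S ∧ r = distortion S}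
        ⊆ {r : ℝ | ∃ S : Set (Y × X), IsCorrespondence S ∧ r = distortion S} := by
      rintro X Y _ _ r ⟨S, hS, rfl⟩
      refine ⟨Prod.swap ⁻¹' S, ⟨hS.2, hS.1⟩, ?_⟩
      unfold distortion
      congr 1
      ext r
      constructor
      · rintro ⟨p, hp, q, hq, rfl⟩
        exact ⟨p.swap, hp, q.swap, hq, abs_sub_comm _ _⟩
      · rintro ⟨p, hp, q, hq, rfl⟩
        exact ⟨p.swap, hp, q.swap, hq, abs_sub_comm _ _⟩
    exact Set.Subset.antisymm key key
  unfold dGH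
  rw [this]

end General

section Tree

variable {ι : Type} [Fintype ι] [DecidableEq ι] (X : ι → Type) [∀ i, MetricSpace (X i)]

/-- The invariant of the greedy construction. -/
def Inv (A : Finset ι) (R : Set (∀ i, X i)) : Prop :=
  (∀ i ∈ A, ∀ x : X i, ∃ r ∈ R, r i = x) ∧
    ∀ i ∈ A, ∀ j ∈ A, ∃ u : ℝ, 0 ≤ u ∧ u ≤ 2 * dGH (X i) (X j) ∧
      ((∀ l ∉ A, u ≤ 2 * dGH (X i) (X l)) ∨ (∀ l ∉ A, u ≤ 2 * dGH (X j) (X l))) ∧
      ∀ r ∈ R, ∀ r' ∈ R, |dist (r i) (r' i) - dist (r j) (r' j)| ≤ ((A.card : ℝ) - 1) * u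

theorem inv_step [∀ i, CompactSpace (X i)] [∀ i, Nonempty (X i)] {A : Finset ι}
    {R : Set (∀ i, X i)} (hA : A.Nonempty) (hA' : Aᶜ.Nonempty) (h : Inv X A R) :
    ∃ v ∉ A, ∃ R', Inv X (insert v A) R' := by
  obtain ⟨⟨p, v⟩, hpv, hmin⟩ := (A ×ˢ Aᶜ).exists_min_image
    (fun z => 2 * dGH (X z.1) (X z.2)) (hA.product hA')
  rw [Finset.mem_product, Finset.mem_compl] at hpv
  obtain ⟨hp, hv⟩ := hpv
  simp only at hp hv
  have hw : ∀ i ∈ A, ∀ l ∉ A, 2 * dGH (X p) (X v) ≤ 2 * dGH (X i) (X l) := fun i hi l hl =>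
    hmin (i, l) (Finset.mem_product.2 ⟨hi, Finset.mem_compl.2 hl⟩)
  obtain ⟨S, hS, hSd⟩ := exists_optimal (X := X p) (Y := X v)
  have hne : ∀ i ∈ A, i ≠ v := fun i hi e => hv (e ▸ hi)
  have hcard : ((insert v A).card : ℝ) - 1 = A.card := by
    rw [Finset.card_insert_of_notMem hv]
    push_cast
    ring
  have hc1 : (1 : ℝ) ≤ A.card := by exact_mod_cast hA.card_pos
  have hw0 : 0 ≤ 2 * dGH (X p) (X v) := two_dGH_nonneg
  have new : ∀ i ∈ A, ∃ u : ℝ, 0 ≤ u ∧ (∀ l ∉ A, u ≤ 2 * dGH (X i) (X l)) ∧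
      ∀ r ∈ R, ∀ y, (r p, y) ∈ S → ∀ r' ∈ R, ∀ y', (r' p, y') ∈ S →
        |dist (r i) (r' i) - dist y y'| ≤ A.card * u := by
    intro i hi
    obtain ⟨u, hu0, -, hu, hb⟩ := h.2 i hi p hp
    refine ⟨max u (2 * dGH (X p) (X v)), le_max_of_le_left hu0, fun l hl => ?_, ?_⟩
    · rcases hu with hu | hu
      · exact max_le (hu l hl) (hw i hi l hl)
      · exact max_le ((hu v hv).trans (hw i hi l hl)) (hw i hi l hl)
    · intro r hr y hy r' hr' y' hy'
      have h1 := hb r hr r' hr'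
      have h2 := hSd _ hy _ hy'
      simp only at h2
      have h3 := abs_sub_le (dist (r i) (r' i)) (dist (r p) (r' p)) (dist y y')
      have h4 := le_max_left u (2 * dGH (X p) (X v))
      have h5 := le_max_right u (2 * dGH (X p) (X v))
      have h6 : ((A.card : ℝ) - 1) * u ≤ ((A.card : ℝ) - 1) * max u (2 * dGH (X p) (X v)) :=
        mul_le_mul_of_nonneg_left h4 (by linarith)
      linarith
  refine ⟨v, hv, {s | ∃ r ∈ R, ∃ y, (r p, y) ∈ S ∧ s = Function.update r v y}, ?_, ?_⟩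
  · intro i hi x
    rcases Finset.mem_insert.1 hi with rfl | hi
    · obtain ⟨z, hz⟩ := hS.2 x
      obtain ⟨r, hr, rfl⟩ := h.1 p hp z
      exact ⟨_, ⟨r, hr, x, hz, rfl⟩, Function.update_self ..⟩
    · obtain ⟨r, hr, rfl⟩ := h.1 i hi x
      obtain ⟨y, hy⟩ := hS.1 (r p)
      exact ⟨_, ⟨r, hr, y, hy, rfl⟩, Function.update_of_ne (hne i hi) ..⟩
  · intro i hi0 j hj0
    rw [hcard]
    rcases Finset.mem_insert.1 hi0 with rfl | hi <;> rcases Finset.mem_insert.1 hj0 with rfl | hj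
    · exact ⟨0, le_rfl, two_dGH_nonneg, Or.inl fun l _ => two_dGH_nonneg, by simp⟩
    · obtain ⟨u, hu0, hu, hb⟩ := new j hj
      refine ⟨u, hu0, (hu i hv).trans dGH_comm_le,
        Or.inr fun l hl => hu l fun h' => hl (Finset.mem_insert_of_mem h'), ?_⟩
      rintro _ ⟨r, hr, y, hy, rfl⟩ _ ⟨r', hr', y', hy', rfl⟩
      rw [Function.update_self, Function.update_self, Function.update_of_ne (hne j hj),
        Function.update_of_ne (hne j hj), abs_sub_comm]
      exact hb r hr y hy r' hr' y' hy'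
    · obtain ⟨u, hu0, hu, hb⟩ := new i hi
      refine ⟨u, hu0, hu j hv,
        Or.inl fun l hl => hu l fun h' => hl (Finset.mem_insert_of_mem h'), ?_⟩
      rintro _ ⟨r, hr, y, hy, rfl⟩ _ ⟨r', hr', y', hy', rfl⟩
      rw [Function.update_self, Function.update_self, Function.update_of_ne (hne i hi),
        Function.update_of_ne (hne i hi)]
      exact hb r hr y hy r' hr' y' hy'
    · obtain ⟨u, hu0, hu1, hu, hb⟩ := h.2 i hi j hj
      refine ⟨u, hu0, hu1, hu.imp
        (fun hu l hl => hu l fun h' => hl (Finset.mem_insert_of_mem h'))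
        (fun hu l hl => hu l fun h' => hl (Finset.mem_insert_of_mem h')), ?_⟩
      rintro _ ⟨r, hr, y, hy, rfl⟩ _ ⟨r', hr', y', hy', rfl⟩
      rw [Function.update_of_ne (hne i hi), Function.update_of_ne (hne i hi),
        Function.update_of_ne (hne j hj), Function.update_of_ne (hne j hj)]
      have := hb r hr r' hr'
      nlinarith

theorem exists_inv [∀ i, CompactSpace (X i)] [∀ i, Nonempty (X i)] (n : ℕ)
    (hn : n + 1 ≤ Fintype.card ι) : ∃ A : Finset ι, ∃ R, A.card = n + 1 ∧ Inv X A R := by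
  induction n with
  | zero =>
    obtain ⟨i⟩ : Nonempty ι := Fintype.card_pos_iff.1 hn
    refine ⟨{i}, Set.univ, rfl, fun j _ x => ?_, fun a ha b hb => ?_⟩
    · exact ⟨Function.update (fun l => Classical.arbitrary (X l)) j x, trivial,
        Function.update_self ..⟩
    · rw [Finset.mem_singleton] at ha hb
      subst ha hb
      exact ⟨0, le_rfl, two_dGH_nonneg, Or.inl fun l _ => two_dGH_nonneg, by simp⟩
  | succ n ih =>
    obtain ⟨A, R, hA, h⟩ := ih (by omega)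
    obtain ⟨v, hv, R', h'⟩ := inv_step X (Finset.card_pos.1 (by omega))
      (Finset.card_pos.1 (by rw [Finset.card_compl]; omega)) h
    exact ⟨insert v A, R', by rw [Finset.card_insert_of_notMem hv, hA], h'⟩

theorem upper [∀ i, CompactSpace (X i)] [∀ i, Nonempty (X i)] [Nonempty ι] :
    ∃ R : Set (∀ i, X i), ∀ i j,
      IsCorrespondence ((fun x : ∀ i, X i => (x i, x j)) '' R) ∧
      distortion ((fun x : ∀ i, X i => (x i, x j)) '' R)
        ≤ ((Fintype.card ι : ℝ) - 1) * (2 * dGH (X i) (X j)) := by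
  have hpos : 0 < Fintype.card ι := Fintype.card_pos
  obtain ⟨A, R, hA, h⟩ := exists_inv X (Fintype.card ι - 1) (by omega)
  obtain rfl : A = Finset.univ := Finset.eq_univ_of_card A (by omega)
  have hc1 : (1 : ℝ) ≤ Fintype.card ι := by exact_mod_cast hpos
  refine ⟨R, fun i j => ⟨⟨fun x => ?_, fun y => ?_⟩, ?_⟩⟩
  · obtain ⟨r, hr, rfl⟩ := h.1 i (Finset.mem_univ _) x
    exact ⟨r j, r, hr, rfl⟩
  · obtain ⟨r, hr, rfl⟩ := h.1 j (Finset.mem_univ _) y
    exact ⟨r i, r, hr, rfl⟩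
  · obtain ⟨u, hu0, hu1, -, hb⟩ := h.2 i (Finset.mem_univ _) j (Finset.mem_univ _)
    rw [Finset.card_univ] at hb
    refine distortion_le _ (mul_nonneg (by linarith) two_dGH_nonneg) ?_
    rintro _ ⟨r, hr, rfl⟩ _ ⟨r', hr', rfl⟩
    exact (hb r hr r' hr').trans (mul_le_mul_of_nonneg_left hu1 (by linarith))

end Tree

end Pool.Agent.MP_029391_gt.SL
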